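import Pool.Agent.P8H30.MX.Stm

/-!
# Project MX, packages EBL and BLJ (helper5): block form of `Am`, `E`, `Bm` and the degenerate form
-/

set_option autoImplicit false

open Matrix

namespace Pool.Agent.P8H5.MX

open Pool.Agent.P8H30.MX
open Pool.Agent.Y119.HY

variable {s n : ℕ}

/-- a matrix with the lower left block `0` is a block matrix -/
theorem eq_bl (M : Matrix (Fin (s + n)) (Fin (s + n)) ℂ) (g : Matrix (Fin n) (Fin n) ℂ)
    (h0 : ∀ i j, M (Fin.natAdd s i) (Fin.castAdd n j) = 0)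
    (h1 : ∀ i j, M (Fin.natAdd s i) (Fin.natAdd s j) = g i j) :
    M = bl (Matrix.of fun i j => M (Fin.castAdd n i) (Fin.castAdd n j))
      (Matrix.of fun i j => M (Fin.castAdd n i) (Fin.natAdd s j)) g := by
  ext i j
  refine Fin.addCases (fun i => ?_) (fun i => ?_) i <;> refine Fin.addCases (fun j => ?_) (fun j => ?_) j
  · rw [bl_castAdd]
    rfl
  · rw [bl_right]
    rfl
  · rw [bl_left, h0]
  · rw [bl_natAdd, h1]

theorem ebl : S_EBL := by
  intro s n L
  refine ⟨_, _, eq_bl _ _ (fun i j => ?_) (fun i j => ?_)⟩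
  · unfold E
    rw [Matrix.sum_apply]
    refine Finset.sum_eq_zero fun k _ => ?_
    rw [Matrix.smul_apply, ← cm_pow, cm_apply, Am_pow, if_neg]
    · simp
    · simp only [Fin.val_castAdd, Fin.val_natAdd]
      omega
  · unfold E
    rw [Matrix.sum_apply, Matrix.sum_apply]
    symm
    refine Finset.sum_subset_zero_on_sdiff (Finset.range_mono (by omega)) (fun k hk => ?_) (fun k _ => ?_)
    · rw [Finset.mem_sdiff, Finset.mem_range, Finset.mem_range] at hk
      rw [Matrix.smul_apply, ← cm_pow, cm_apply, Am_pow, if_neg]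
      · simp
      · simp only [Fin.val_natAdd]
        omega
    · rw [Matrix.smul_apply, Matrix.smul_apply, ← cm_pow, ← cm_pow, cm_apply, cm_apply, Am_pow, Am_pow]
      congr 3
      simp only [Fin.val_natAdd, eq_iff_iff]
      omega

theorem am_bl (s n : ℕ) : ∃ (a : Matrix (Fin s) (Fin s) ℂ) (c : Matrix (Fin s) (Fin n) ℂ),
    cm (Am (s + n)) = bl a c (cm (Am n)) := by
  refine ⟨_, _, eq_bl _ _ (fun i j => ?_) (fun i j => ?_)⟩
  · rw [cm_apply]
    unfold Am
    simp only [Matrix.of_apply, Fin.val_castAdd, Fin.val_natAdd]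
    rw [if_neg (by omega)]
    simp
  · rw [cm_apply, cm_apply]
    unfold Am
    simp only [Matrix.of_apply, Fin.val_natAdd]
    congr 2
    simp only [eq_iff_iff]
    omega

theorem bl0_transpose (J : Matrix (Fin n) (Fin n) ℂ) :
    (bl 0 0 J : Matrix (Fin (s + n)) (Fin (s + n)) ℂ).transpose = bl 0 0 J.transpose := by
  ext i j
  refine Fin.addCases (fun i => ?_) (fun i => ?_) i <;> refine Fin.addCases (fun j => ?_) (fun j => ?_) j <;>
    rw [Matrix.transpose_apply]
  · rw [bl_castAdd, bl_castAdd]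
    rfl
  · rw [bl_left, bl_right]
    rfl
  · rw [bl_left, bl_right]
    rfl
  · rw [bl_natAdd, bl_natAdd]
    rfl

theorem bl0_neg (J : Matrix (Fin n) (Fin n) ℂ) :
    (bl 0 0 (-J) : Matrix (Fin (s + n)) (Fin (s + n)) ℂ) = -bl 0 0 J := by
  ext i j
  refine Fin.addCases (fun i => ?_) (fun i => ?_) i <;> refine Fin.addCases (fun j => ?_) (fun j => ?_) j <;>
    rw [Matrix.neg_apply]
  · rw [bl_castAdd, bl_castAdd, Matrix.zero_apply, neg_zero]
  · rw [bl_right, bl_right, Matrix.zero_apply, neg_zero]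
  · rw [bl_left, bl_left, neg_zero]
  · rw [bl_natAdd, bl_natAdd, Matrix.neg_apply]

theorem uc_castAdd (hn : 2 ≤ n) (i : Fin s) : uc (s + n) (Fin.castAdd n i) = 0 := by
  unfold uc
  rw [if_neg]
  simp only [Fin.val_castAdd]
  omega

theorem uc_natAdd (i : Fin n) : uc (s + n) (Fin.natAdd s i) = uc n i := by
  unfold uc
  congr 1
  simp only [Fin.val_natAdd, eq_iff_iff]
  omega

theorem blj : S_BLJ := by
  intro s n Q hQ
  have hJ := Jc_skew hQ
  refine ⟨?_, ?_, ?_⟩
  · rw [bl0_transpose, hJ, bl0_neg]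
  · obtain ⟨a, c, hac⟩ := am_bl s n
    have h1 : (bl 0 0 (cm (Jm n Q)) : Matrix (Fin (s + n)) (Fin (s + n)) ℂ) * cm (Am (s + n)) =
        bl 0 0 (cm (Jm n Q) * cm (Am n)) := by
      rw [hac, bl_mul]
      simp
    have h2 : (cm (Am (s + n))).transpose * bl 0 0 (cm (Jm n Q)) =
        -(bl 0 0 (cm (Jm n Q) * cm (Am n)) : Matrix (Fin (s + n)) (Fin (s + n)) ℂ).transpose := by
      rw [← h1, Matrix.transpose_mul, bl0_transpose, hJ, bl0_neg, Matrix.mul_neg, neg_neg]
    rw [h2, h1, bl0_transpose, ← bl0_neg, Matrix.transpose_mul, hJ, Matrix.mul_neg, neg_neg]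
    have h3 := Jc_rel (n := n) (Q := Q)
    have h4 : (cm (Am n)).transpose * cm (Jm n Q) = -(cm (Jm n Q) * cm (Am n)) :=
      eq_neg_of_add_eq_zero_left h3
    rw [h4, bl0_neg, neg_add_cancel]
  · have hn := hQ.two
    have h1 := cm_Bm hQ
    have h2 : ∀ j : Fin n, (uc (s + n) ᵥ* (bl 0 0 (cm (Jm n Q)) : Matrix (Fin (s + n)) (Fin (s + n)) ℂ))
        (Fin.natAdd s j) = (uc n ᵥ* cm (Jm n Q)) j := by
      intro j
      simp only [Matrix.vecMul, dotProduct]
      rw [Fin.sum_univ_add]
      simp only [uc_castAdd hn, zero_mul, Finset.sum_const_zero, zero_add, uc_natAdd, bl_natAdd]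
    have h3 : ∀ j : Fin s, (uc (s + n) ᵥ* (bl 0 0 (cm (Jm n Q)) : Matrix (Fin (s + n)) (Fin (s + n)) ℂ))
        (Fin.castAdd n j) = 0 := by
      intro j
      simp only [Matrix.vecMul, dotProduct]
      rw [Fin.sum_univ_add]
      simp only [uc_castAdd hn, zero_mul, Finset.sum_const_zero, zero_add, bl_left, mul_zero]
    ext i j
    rw [Matrix.neg_apply, vecMulVec_apply, cm_apply]
    unfold Bm
    simp only [Matrix.of_apply]
    rw [Polynomial.coeff_X_pow_mul']
    refine Fin.addCases (fun i => ?_) (fun i => ?_) i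
    · have hi : ¬ (((Fin.castAdd n i : Fin (s + n)) : ℕ) + 1 = s + n) := by
        simp only [Fin.val_castAdd]
        omega
      rw [uc_castAdd hn, zero_mul, neg_zero, if_neg hi]
      simp
    · refine Fin.addCases (fun j => ?_) (fun j => ?_) j
      · have hj : ¬ (s ≤ ((Fin.castAdd n j : Fin (s + n)) : ℕ)) := by
          simp only [Fin.val_castAdd]
          omega
        rw [h3, mul_zero, neg_zero, if_neg hj]
        simp
      · rw [h2, uc_natAdd]
        have h5 := congrFun (congrFun h1 i) j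
        rw [Matrix.neg_apply, vecMulVec_apply, cm_apply] at h5
        rw [← h5]
        unfold Bm
        simp only [Matrix.of_apply, Fin.val_natAdd]
        by_cases h : (i : ℕ) + 1 = n
        · rw [if_pos h, if_pos (by omega), if_pos (by omega), Nat.add_sub_cancel_left]
        · rw [if_neg h, if_neg (by omega)]

end Pool.Agent.P8H5.MX
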